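import Pool.Agent.H12.KP.Targets4

/-!
# APX: a finitely generated subalgebra of the completion has a retraction to `A`
-/

set_option autoImplicit false

namespace Pool.Agent.H46.KP

open Pool.Agent.H12.KP Polynomial TensorProduct

universe u v w

section

variable {A : Type u} {R : Type v} {R' : Type w} [CommRing A] [CommRing R] [Algebra A R]
  [CommRing R'] [Algebra A R'] {m : ℕ}

/-- `ev2` as a ring homomorphism -/
noncomputable def ev2h (t : Fin m → R) (θ : R) : (MvPolynomial (Fin m) A)[X] →+* R :=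
  Polynomial.eval₂RingHom (MvPolynomial.aeval t : MvPolynomial (Fin m) A →ₐ[A] R).toRingHom θ

theorem ev2h_apply (t : Fin m → R) (θ : R) (G : (MvPolynomial (Fin m) A)[X]) :
    ev2h t θ G = ev2 t θ G := rfl

theorem ev2_add (t : Fin m → R) (θ : R) (G H : (MvPolynomial (Fin m) A)[X]) :
    ev2 t θ (G + H) = ev2 t θ G + ev2 t θ H := (ev2h t θ).map_add G H

theorem ev2_sub (t : Fin m → R) (θ : R) (G H : (MvPolynomial (Fin m) A)[X]) :
    ev2 t θ (G - H) = ev2 t θ G - ev2 t θ H := (ev2h t θ).map_sub G H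

theorem ev2_mul (t : Fin m → R) (θ : R) (G H : (MvPolynomial (Fin m) A)[X]) :
    ev2 t θ (G * H) = ev2 t θ G * ev2 t θ H := (ev2h t θ).map_mul G H

theorem ev2_C (t : Fin m → R) (θ : R) (g : MvPolynomial (Fin m) A) :
    ev2 t θ (C g) = MvPolynomial.aeval t g := by
  unfold ev2
  rw [Polynomial.eval₂_C]
  rfl

theorem ev2_Cpow (t : Fin m → R) (θ : R) (g : MvPolynomial (Fin m) A) (k : ℕ) :
    ev2 t θ (C g ^ k) = MvPolynomial.aeval t g ^ k := by
  rw [← ev2_C t θ g]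
  exact (ev2h t θ).map_pow (C g) k

/-- two ring homomorphisms which agree on the generators -/
theorem ev2_ext {S : Type w} [CommRing S] (f g : (MvPolynomial (Fin m) A)[X] →+* S)
    (h1 : ∀ a : A, f (C (MvPolynomial.C a)) = g (C (MvPolynomial.C a)))
    (h2 : ∀ i, f (C (MvPolynomial.X i)) = g (C (MvPolynomial.X i))) (h3 : f X = g X) : f = g := by
  refine Polynomial.ringHom_ext' (MvPolynomial.ringHom_ext ?_ ?_) h3
  · intro a; exact h1 a
  · intro i; exact h2 i

theorem ev2_map (φ : R →ₐ[A] R') (t : Fin m → R) (θ : R) (G : (MvPolynomial (Fin m) A)[X]) :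
    φ (ev2 t θ G) = ev2 (fun i => φ (t i)) (φ θ) G := by
  have h : (φ.toRingHom.comp (ev2h t θ : (MvPolynomial (Fin m) A)[X] →+* R)) =
      ev2h (fun i => φ (t i)) (φ θ) := by
    refine ev2_ext _ _ ?_ ?_ ?_
    · intro a
      simp [ev2h]
    · intro i
      simp [ev2h]
    · simp [ev2h]
  exact congrArg (fun f => f G) h

/-- congruences -/
theorem ev2_congr (c : R) (t t' : Fin m → R) (θ θ' : R) (ht : ∀ i, c ∣ t i - t' i)
    (hθ : c ∣ θ - θ') (G : (MvPolynomial (Fin m) A)[X]) : c ∣ ev2 t θ G - ev2 t' θ' G := by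
  have h : ((Ideal.Quotient.mk (Ideal.span {c})).comp
      (ev2h t θ : (MvPolynomial (Fin m) A)[X] →+* R)) =
      (Ideal.Quotient.mk (Ideal.span {c})).comp (ev2h t' θ' : (MvPolynomial (Fin m) A)[X] →+* R) := by
    refine ev2_ext _ _ ?_ ?_ ?_
    · intro a
      simp [ev2h]
    · intro i
      simp only [ev2h, RingHom.comp_apply, Polynomial.coe_eval₂RingHom, Polynomial.eval₂_C,
        AlgHom.toRingHom_eq_coe, RingHom.coe_coe, MvPolynomial.aeval_X]
      rw [Ideal.Quotient.mk_eq_mk_iff_sub_mem, Ideal.mem_span_singleton]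
      exact ht i
    · simp only [ev2h, RingHom.comp_apply, Polynomial.coe_eval₂RingHom, Polynomial.eval₂_X]
      rw [Ideal.Quotient.mk_eq_mk_iff_sub_mem, Ideal.mem_span_singleton]
      exact hθ
  have h2 := congrArg (fun f => f G) h
  simp only [RingHom.comp_apply, ev2h_apply] at h2
  rwa [Ideal.Quotient.mk_eq_mk_iff_sub_mem, Ideal.mem_span_singleton] at h2

end

section

variable {A : Type u} {Ah : Type v} [CommRing A] [CommRing Ah] [Algebra A Ah] {π : A}

/-- the exact power -/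
theorem exact_pow (hI : Pool.Agent.H12.KP.IsCompl Ah π) (x : Ah) (hx : x ≠ 0) :
    ∃ s : ℕ, algebraMap A Ah π ^ s ∣ x ∧ ¬ algebraMap A Ah π ^ (s + 1) ∣ x := by
  classical
  have h1 : ∃ k, ¬ algebraMap A Ah π ^ k ∣ x := by
    by_contra hcon
    push Not at hcon
    exact hx (hI.sep x hcon)
  have h2 := Nat.find_spec h1
  have h3 : Nat.find h1 ≠ 0 := by
    intro h
    rw [h] at h2
    exact h2 (by simp)
  obtain ⟨s, hs⟩ := Nat.exists_eq_succ_of_ne_zero h3
  refine ⟨s, ?_, ?_⟩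
  · by_contra h4
    exact Nat.find_min h1 (by omega) h4
  · rw [hs] at h2; exact h2

theorem approx_unit [IsDomain A] [IsDiscreteValuationRing A] (hπ : Irreducible π)
    (hI : Pool.Agent.H12.KP.IsCompl Ah π) (x : Ah) (a : A) (s K : ℕ) (hsK : s < K)
    (h1 : algebraMap A Ah π ^ s ∣ x) (h2 : ¬ algebraMap A Ah π ^ (s + 1) ∣ x)
    (h3 : algebraMap A Ah π ^ K ∣ algebraMap A Ah a - x) : ∃ ε : A, IsUnit ε ∧ a = ε * π ^ s := by
  have h4 : algebraMap A Ah π ^ s ∣ algebraMap A Ah a := by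
    have h5 : algebraMap A Ah π ^ s ∣ algebraMap A Ah a - x :=
      (pow_dvd_pow _ hsK.le).trans h3
    have := dvd_add h5 h1
    rwa [sub_add_cancel] at this
  obtain ⟨a', ha'⟩ := hI.pure a s h4
  refine ⟨a', ?_, by rw [ha']; ring⟩
  by_contra hnu
  have h6 : a' ∈ IsLocalRing.maximalIdeal A := (IsLocalRing.mem_maximalIdeal a').2 hnu
  rw [(IsDiscreteValuationRing.irreducible_iff_uniformizer π).1 hπ,
    Ideal.mem_span_singleton] at h6
  obtain ⟨b, hb⟩ := h6
  apply h2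
  have h7 : algebraMap A Ah π ^ (s + 1) ∣ algebraMap A Ah a := by
    rw [ha', hb]
    refine ⟨algebraMap A Ah b, ?_⟩
    simp only [map_mul, map_pow]
    ring
  have h8 : algebraMap A Ah π ^ (s + 1) ∣ algebraMap A Ah a - x :=
    (pow_dvd_pow _ hsK).trans h3
  have := dvd_sub h7 h8
  rwa [sub_sub_cancel] at this

end

theorem pf_APX (hNH : S_NH.{u}) (hPR : S_PRIM.{u,v}) : S_APX.{u,v} := by
  classical
  intro A Ah _ _ _ _ _ _ _ π hπ hI R hR
  have hdom : IsDomain Ah := hI.domain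
  have hFT : Algebra.FiniteType A R := R.fg_iff_finiteType.1 hR
  have hinjh : ∀ a : A, algebraMap A Ah a = 0 → a = 0 := by
    intro a ha
    by_contra hne
    have h1 : ∀ k, π ^ k ∣ a := fun k => hI.pure a k (by rw [ha]; exact dvd_zero _)
    obtain ⟨n, hn⟩ := IsDiscreteValuationRing.associated_pow_irreducible hne hπ
    have h2 := (h1 (n + 1)).trans hn.dvd
    have h3 : π ^ (n + 1) ∣ π ^ n * 1 := by rw [mul_one]; exact h2
    rw [pow_succ] at h3
    have h4 := (mul_dvd_mul_iff_left (pow_ne_zero n hπ.ne_zero)).1 h3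
    exact hπ.not_isUnit (isUnit_of_dvd_one h4)
  have hinj : Function.Injective (algebraMap A R) := by
    rw [injective_iff_map_eq_zero]
    intro a ha
    apply hinjh
    have := congrArg (fun x : R => (x : Ah)) ha
    simpa using this
  obtain ⟨m, t, θ, F, D, hind, hD0, hF0, hF1, hgen, hker⟩ := hPR A R hinj hFT
  -- exact powers
  obtain ⟨x1, hx1⟩ : ∃ x1 : Ah, x1 = ((ev2 t θ F.derivative : R) : Ah) := ⟨_, rfl⟩
  have hx1n : x1 ≠ 0 := by
    rw [hx1]; intro h; exact hF1 (by exact_mod_cast h)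
  obtain ⟨s, hs1, hs2⟩ := exact_pow hI x1 hx1n
  obtain ⟨x2, hx2⟩ : ∃ x2 : Ah, x2 = ((MvPolynomial.aeval t D : R) : Ah) := ⟨_, rfl⟩
  have hDt : (MvPolynomial.aeval t D : R) ≠ 0 := by
    intro h
    exact hD0 (hind (by rw [h, map_zero]))
  have hx2n : x2 ≠ 0 := by
    rw [hx2]; intro h; exact hDt (by exact_mod_cast h)
  obtain ⟨d, hd1, hd2⟩ := exact_pow hI x2 hx2n
  -- generators
  obtain ⟨S, hS⟩ := hFT.out
  choose kk GG hkG using hgen
  obtain ⟨M, hM⟩ : ∃ M : ℕ, ∀ x ∈ S, kk x ≤ M :=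
    ⟨S.sup kk, fun x hx => Finset.le_sup hx⟩
  obtain ⟨K, hK⟩ : ∃ K : ℕ, K = 2 * s + 1 + d + d * M := ⟨_, rfl⟩
  -- approximations
  choose t' ht' using fun i => hI.dense ((t i : R) : Ah) K
  obtain ⟨θ0, hθ0⟩ := hI.dense (θ : Ah) K
  -- evaluation in `Ah`
  have hval : ∀ G : (MvPolynomial (Fin m) A)[X], ((ev2 t θ G : R) : Ah) = ev2 (fun i => ((t i : R) : Ah)) (θ : Ah) G :=
    fun G => ev2_map R.val t θ G
  have hval2 : ∀ (θ1 : A) (G : (MvPolynomial (Fin m) A)[X]), algebraMap A Ah (ev2 t' θ1 G) =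
      ev2 (fun i => algebraMap A Ah (t' i)) (algebraMap A Ah θ1) G :=
    fun θ1 G => ev2_map (Algebra.ofId A Ah) t' θ1 G
  have hcong : ∀ (k : ℕ) (θ1 : A), k ≤ K → algebraMap A Ah π ^ k ∣ (θ : Ah) - algebraMap A Ah θ1 →
      ∀ G : (MvPolynomial (Fin m) A)[X],
        algebraMap A Ah π ^ k ∣ algebraMap A Ah (ev2 t' θ1 G) - ((ev2 t θ G : R) : Ah) := by
    intro k θ1 hk h1 G
    rw [hval, hval2, ← dvd_neg, neg_sub]
    exact ev2_congr _ _ _ _ _ (fun i => (pow_dvd_pow _ hk).trans (ht' i)) h1 G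
  -- the polynomial `f`
  obtain ⟨f, hf⟩ : ∃ f : A[X], f = F.map (MvPolynomial.aeval t' : MvPolynomial (Fin m) A →ₐ[A] A).toRingHom :=
    ⟨_, rfl⟩
  have hfe : ∀ a : A, f.eval a = ev2 t' a F := by
    intro a
    rw [hf, Polynomial.eval_map]
    rfl
  have hfd : ∀ a : A, f.derivative.eval a = ev2 t' a F.derivative := by
    intro a
    rw [hf, Polynomial.derivative_map, Polynomial.eval_map]
    rfl
  have hc0 := hcong K θ0 le_rfl hθ0
  have h1 : π ^ K ∣ f.eval θ0 := by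
    apply hI.pure
    have := hc0 F
    rw [hF0] at this
    rw [hfe]
    simpa using this
  obtain ⟨ε, hε, hεs⟩ := approx_unit hπ hI x1 (f.derivative.eval θ0) s K (by omega) hs1 hs2 (by
    rw [hfd, hx1]; exact hc0 F.derivative)
  obtain ⟨θ', hθ'1, hθ'2⟩ := hNH A π hπ f θ0 ε s K (by omega) h1 hε hεs
  have hθ'3 : algebraMap A Ah π ^ (K - s) ∣ (θ : Ah) - algebraMap A Ah θ' := by
    have a1 : algebraMap A Ah π ^ (K - s) ∣ (θ : Ah) - algebraMap A Ah θ0 :=
      (pow_dvd_pow _ (Nat.sub_le _ _)).trans hθ0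
    have a2 : algebraMap A Ah π ^ (K - s) ∣ algebraMap A Ah θ' - algebraMap A Ah θ0 := by
      rw [← map_sub, ← map_pow]
      exact map_dvd _ hθ'2
    have := dvd_sub a1 a2
    have e : (θ : Ah) - algebraMap A Ah θ0 - (algebraMap A Ah θ' - algebraMap A Ah θ0) =
        (θ : Ah) - algebraMap A Ah θ' := by ring
    rwa [e] at this
  have hc' := hcong (K - s) θ' (Nat.sub_le _ _) hθ'3
  -- `D'`
  obtain ⟨D', hD'⟩ : ∃ D' : A, D' = MvPolynomial.aeval t' D := ⟨_, rfl⟩
  obtain ⟨υ, hυ, hυd⟩ := approx_unit hπ hI x2 D' d K (by omega) hd1 hd2 (by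
    have := hc0 (C D)
    rw [ev2_C, ev2_C] at this
    rw [hD', hx2]; exact this)
  have hD'0 : D' ≠ 0 := by
    rw [hυd]
    exact mul_ne_zero hυ.ne_zero (pow_ne_zero _ hπ.ne_zero)
  have hψF : ev2 t' θ' F = 0 := by rw [← hfe]; exact hθ'1
  have hψk : ∀ G : (MvPolynomial (Fin m) A)[X], ev2 t θ G = 0 → ev2 t' θ' G = 0 := by
    intro G hG
    obtain ⟨k, H, hkH⟩ := hker G hG
    have := congrArg (ev2 t' θ') hkH
    rw [ev2_mul, ev2_mul, hψF, zero_mul, ev2_Cpow, ← hD'] at this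
    rcases mul_eq_zero.1 this with h | h
    · exact absurd h (pow_ne_zero _ hD'0)
    · exact h
  -- the relation
  let P : R → A → Prop := fun x y => ∃ (k : ℕ) (G : (MvPolynomial (Fin m) A)[X]),
    MvPolynomial.aeval t D ^ k * x = ev2 t θ G ∧ D' ^ k * y = ev2 t' θ' G
  have hPu : ∀ x y y', P x y → P x y' → y = y' := by
    rintro x y y' ⟨k, G, g1, g2⟩ ⟨k', G', g3, g4⟩
    have e1 : ev2 t θ (C D ^ k' * G - C D ^ k * G') = 0 := by
      rw [ev2_sub, ev2_mul, ev2_mul, ev2_Cpow, ev2_Cpow, ← g1, ← g3]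
      ring
    have e2 := hψk _ e1
    rw [ev2_sub, ev2_mul, ev2_mul, ev2_Cpow, ev2_Cpow, ← g2, ← g4, ← hD'] at e2
    have e3 : D' ^ k' * D' ^ k * (y - y') = 0 := by
      rw [← e2]; ring
    rcases mul_eq_zero.1 e3 with h | h
    · rcases mul_eq_zero.1 h with h | h
      · exact absurd h (pow_ne_zero _ hD'0)
      · exact absurd h (pow_ne_zero _ hD'0)
    · exact sub_eq_zero.1 h
  have hPadd : ∀ x y x' y', P x y → P x' y' → P (x + x') (y + y') := by
    rintro x y x' y' ⟨k, G, g1, g2⟩ ⟨k', G', g3, g4⟩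
    refine ⟨k + k', C D ^ k' * G + C D ^ k * G', ?_, ?_⟩
    · rw [ev2_add, ev2_mul, ev2_mul, ev2_Cpow, ev2_Cpow, ← g1, ← g3]; ring
    · rw [ev2_add, ev2_mul, ev2_mul, ev2_Cpow, ev2_Cpow, ← g2, ← g4, ← hD']; ring
  have hPmul : ∀ x y x' y', P x y → P x' y' → P (x * x') (y * y') := by
    rintro x y x' y' ⟨k, G, g1, g2⟩ ⟨k', G', g3, g4⟩
    refine ⟨k + k', G * G', ?_, ?_⟩
    · rw [ev2_mul, ← g1, ← g3]; ring
    · rw [ev2_mul, ← g2, ← g4]; ring
  have hPalg : ∀ a : A, P (algebraMap A R a) a := by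
    intro a
    refine ⟨0, C (MvPolynomial.C a), ?_, ?_⟩
    · rw [ev2_C]; simp
    · rw [ev2_C]; simp
  -- the generators
  have hPgen : ∀ x ∈ S, ∃ y, P x y := by
    intro x hx
    have b1 : algebraMap A Ah π ^ (d * kk x) ∣ ((ev2 t θ (GG x) : R) : Ah) := by
      rw [← hkG x]
      have b2 : algebraMap A Ah π ^ (d * kk x) ∣ x2 ^ (kk x) := by
        rw [pow_mul]
        exact pow_dvd_pow_of_dvd hd1 _
      have b3 : (((MvPolynomial.aeval t D ^ kk x * x : R)) : Ah) = x2 ^ (kk x) * (x : Ah) := by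
        rw [hx2]; push_cast; rfl
      rw [b3]
      exact dvd_mul_of_dvd_left b2 _
    have b4 : d * kk x ≤ K - s := by
      have := Nat.mul_le_mul_left d (hM x hx)
      omega
    have b5 : algebraMap A Ah π ^ (d * kk x) ∣ algebraMap A Ah (ev2 t' θ' (GG x)) := by
      have b6 := (pow_dvd_pow (algebraMap A Ah π) b4).trans (hc' (GG x))
      have := dvd_add b6 b1
      rwa [sub_add_cancel] at this
    obtain ⟨z, hz⟩ := hI.pure _ _ b5
    obtain ⟨υ', hυ'⟩ := hυ.exists_left_inv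
    refine ⟨υ' ^ kk x * z, kk x, GG x, hkG x, ?_⟩
    rw [hz, hυd, mul_pow, ← pow_mul]
    calc υ ^ kk x * π ^ (d * kk x) * (υ' ^ kk x * z) =
        (υ' * υ) ^ kk x * (π ^ (d * kk x) * z) := by rw [mul_pow]; ring
      _ = π ^ (d * kk x) * z := by rw [hυ', one_pow, one_mul]
  have hPall : ∀ x : R, ∃ y, P x y := by
    intro x
    have hx : x ∈ Algebra.adjoin A (S : Set R) := by rw [hS]; exact Algebra.mem_top
    induction hx using Algebra.adjoin_induction with
    | mem x hx => exact hPgen x hx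
    | algebraMap a => exact ⟨a, hPalg a⟩
    | add x y _ _ hx hy =>
      obtain ⟨x', hx'⟩ := hx
      obtain ⟨y', hy'⟩ := hy
      exact ⟨_, hPadd _ _ _ _ hx' hy'⟩
    | mul x y _ _ hx hy =>
      obtain ⟨x', hx'⟩ := hx
      obtain ⟨y', hy'⟩ := hy
      exact ⟨_, hPmul _ _ _ _ hx' hy'⟩
  choose φ hφ using hPall
  have hφa : ∀ a : A, φ (algebraMap A R a) = a := fun a => hPu _ _ _ (hφ _) (hPalg a)
  exact ⟨{
    toFun := φ
    map_one' := by
      have := hφa 1
      rwa [map_one] at this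
    map_mul' := fun x y => hPu _ _ _ (hφ _) (hPmul _ _ _ _ (hφ x) (hφ y))
    map_zero' := by
      have := hφa 0
      rwa [map_zero] at this
    map_add' := fun x y => hPu _ _ _ (hφ _) (hPadd _ _ _ _ (hφ x) (hφ y))
    commutes' := fun a => hφa a }⟩

end Pool.Agent.H46.KP
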